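import Pool.Agent.H.MP_59e64e_co.B

set_option autoImplicit false

namespace Pool.Agent.Results.MP_59e64e_co.Yes

open scoped ComplexOrder

/-- the real vector space of Hermitian matrices -/
abbrev H (n : ℕ) : Type := selfAdjoint (Matrix (Fin n) (Fin n) ℂ)

variable {n : ℕ}

/-- the trace pairing -/
noncomputable def tr (X Y : H n) : ℝ := (X.1 * Y.1).trace.re

/-- positive semidefinite -/
def PSD (X : H n) : Prop := X.1.PosSemidef

/-- convex corners -/
def Corner (C : Set (H n)) : Prop :=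
  C.Nonempty ∧ IsClosed C ∧ Convex ℝ C ∧ (∀ A ∈ C, PSD A) ∧
    ∀ A ∈ C, ∀ B, PSD B → PSD (A - B) → B ∈ C

/-- the anti-blocker -/
def anti (C : Set (H n)) : Set (H n) := {Z | PSD Z ∧ ∀ X ∈ C, tr X Z ≤ 1}

/-- `Tr(. Y) = α` is a supporting hyperplane of `C` at `T` -/
def Supp (C T : Set (H n)) (Y : H n) (α : ℝ) : Prop :=
  (∀ A ∈ C, tr A Y ≤ α) ∧ ∀ A ∈ T, tr A Y = α

/-- vertices -/
def Vertex (C : Set (H n)) (X : H n) : Prop :=
  X ∈ frontier C ∧ {W | ∀ Y α, Supp C {X} Y α → tr W Y = α} = {X}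

/-- dimension of the affine hull -/
noncomputable def adim (F : Set (H n)) : ℕ := Module.finrank ℝ (affineSpan ℝ F).direction

/-- facets -/
def Facet (C F : Set (H n)) : Prop :=
  (∃ Y α, Supp C F Y α ∧ F = {X | X ∈ C ∧ tr X Y = α}) ∧ F.Nonempty ∧ F ⊆ frontier C ∧
    adim F = n ^ 2 - 1

theorem result (n : ℕ) (C : Set (H n)) (hC : Corner C) (X : H n) (hX : Vertex C X) (h0 : X ≠ 0) :
    Facet (anti C) {Z | Z ∈ anti C ∧ tr X Z = 1} := by
  obtain ⟨-, h1, h2, h3, h4⟩ := hC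
  have h5 : X ∈ C := h1.frontier_subset hX.1
  have hc : ∀ A B : H n, tr A B = tr B A := fun A B =>
    Pool.Agent.H.MP_59e64e_co.tr_comm A.1 B.1
  refine ⟨⟨X, 1, ⟨fun A hA => (hc A X).trans_le (hA.2 X h5), fun A hA => (hc A X).trans hA.2⟩,
    by simp only [hc X]⟩, Pool.Agent.H.MP_59e64e_co.main h3 h2 h4 h5 h0 (fun W hW => ?_) _ _ rfl rfl⟩
  have h6 : X + W ∈ ({X} : Set (H n)) := by
    rw [← hX.2]
    rintro Y α ⟨h7, h8⟩
    have h9 := h8 X rfl
    have h10 := hW Y fun A hA => (h7 A hA).trans h9.ge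
    exact (Pool.Agent.H.MP_59e64e_co.tr_add X.1 W.1 Y.1).trans (by rw [h10, add_zero]; exact h9)
  simpa using h6

end Pool.Agent.Results.MP_59e64e_co.Yes
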